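import Mathlib
import Pool.Agent.Helper65.IsoCore4

set_option autoImplicit false

namespace Pool.Agent.Results.MP_8474a0_co.UniqueRealizer

open Finset
open scoped NNReal Pointwise
open Pool.Agent.Helper65.IsoCore

universe u

variable {V : Type u}

/-- The edge boundary `∂A`: the set of edges of `Γ` with one endpoint in `A` and the other
endpoint outside `A`. -/
def edgeBoundary (Γ : SimpleGraph V) (A : Finset V) : Set (Sym2 V) :=
  {e | ∃ a b, a ∈ A ∧ b ∉ A ∧ Γ.Adj a b ∧ e = s(a, b)}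

/-- The ratio `|∂A| / |A|`. -/
noncomputable def isoRatio (Γ : SimpleGraph V) (A : Finset V) : ℝ≥0 :=
  ((edgeBoundary Γ A).ncard : ℝ≥0) / (A.card : ℝ≥0)

variable [Fintype V] [DecidableEq V]

/-- The maximum of `|∂A| / |A|` over the parts `A` of a partition of the vertex set (a
`Finpartition` has non-empty pairwise disjoint parts with union `V`). -/
noncomputable def partitionCost (Γ : SimpleGraph V) (P : Finpartition (univ : Finset V)) : ℝ≥0 :=
  P.parts.sup (isoRatio Γ)

/-- The `n`-way isoperimetric constant `h_n(Γ)`: the least cost of a partition of `V` into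
exactly `n` non-empty sets. -/
noncomputable def isoConst (Γ : SimpleGraph V) (n : ℕ) : ℝ≥0 :=
  sInf {r | ∃ P : Finpartition (univ : Finset V), P.parts.card = n ∧ partitionCost Γ P = r}

/-- A realizer of `h_n(Γ)`: a partition into `n` non-empty sets whose cost is `h_n(Γ)`. -/
def IsRealizer (Γ : SimpleGraph V) (n : ℕ) (P : Finpartition (univ : Finset V)) : Prop :=
  P.parts.card = n ∧ partitionCost Γ P = isoConst Γ n

/-- The partition `P` is a system of imprimitivity for `Aut(Γ)` acting on `V`: every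
automorphism maps every part onto a part. -/
def IsImprimitivitySystem (Γ : SimpleGraph V) (P : Finpartition (univ : Finset V)) : Prop :=
  ∀ g : Γ ≃g Γ, ∀ A ∈ P.parts, A.image g ∈ P.parts

lemma ncard_edgeBoundary (Γ : SimpleGraph V) [DecidableRel Γ.Adj] (A : Finset V) :
    ((edgeBoundary Γ A).ncard : ℝ) = b Γ.Adj A := by
  unfold b
  have h1 : edgeBoundary Γ A = (fun p : V × V => s(p.1, p.2)) '' (↑(B Γ.Adj A) : Set (V × V)) := by
    ext e
    constructor
    · rintro ⟨x, y, hx, hy, hxy, rfl⟩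
      exact ⟨(x, y), by rw [mem_coe, mem_B]; exact ⟨hx, hy, hxy⟩, rfl⟩
    · rintro ⟨p, hp, rfl⟩
      rw [mem_coe, mem_B] at hp
      exact ⟨p.1, p.2, hp.1, hp.2.1, hp.2.2, rfl⟩
  have h2 : Set.InjOn (fun p : V × V => s(p.1, p.2)) (↑(B Γ.Adj A) : Set (V × V)) := by
    intro p hp q hq hpq
    rw [mem_coe, mem_B] at hp hq
    simp only [Sym2.eq_iff] at hpq
    rcases hpq with ⟨e1, e2⟩ | ⟨e1, e2⟩
    · exact Prod.ext e1 e2
    · exact absurd (e1 ▸ hp.1) hq.2.1
  rw [h1, Set.InjOn.ncard_image h2, Set.ncard_coe_finset]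

/-- A surjective labelling gives a partition whose parts are the fibers. -/
lemma exists_partition {κ : Type*} [Fintype κ] [DecidableEq κ] (l : V → κ)
    (hl : Function.Surjective l) :
    ∃ P : Finpartition (univ : Finset V), P.parts.card = Fintype.card κ ∧
      ∀ A, A ∈ P.parts ↔ ∃ i, fib l i = A := by
  have hinj : Function.Injective (fun i => fib l i) := by
    intro i j hij
    obtain ⟨v, hv⟩ := hl i
    have h1 : v ∈ fib l i := by simpa using hv
    have hij' : fib l i = fib l j := hij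
    rw [hij', mem_fib] at h1
    exact hv.symm.trans h1
  have hex : ∀ a ∈ (univ : Finset V), ∃! t ∈ univ.image (fun i => fib l i), a ∈ t := by
    intro a _
    refine ⟨fib l (l a), ⟨mem_image_of_mem _ (mem_univ _), by simp⟩, ?_⟩
    rintro t ⟨ht, hat⟩
    rw [mem_image] at ht
    obtain ⟨i, _, rfl⟩ := ht
    have : l a = i := by simpa using hat
    rw [this]
  refine ⟨Finpartition.ofExistsUnique (univ.image (fun i => fib l i)) (fun p _ => subset_univ _)
    hex ?_, ?_, ?_⟩
  · intro h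
    rw [mem_image] at h
    obtain ⟨i, _, hi⟩ := h
    obtain ⟨v, hv⟩ := hl i
    have : v ∈ fib l i := by simpa using hv
    have hi' : fib l i = ∅ := hi
    rw [hi'] at this
    exact absurd this (notMem_empty _)
  · show (univ.image (fun i => fib l i)).card = _
    rw [card_image_of_injective _ hinj, card_univ]
  · intro A
    show A ∈ univ.image (fun i => fib l i) ↔ _
    simp

/-- Every partition comes from a surjective labelling. -/
lemma exists_label (n : ℕ) (P : Finpartition (univ : Finset V)) (hP : P.parts.card = n) :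
    ∃ f : V → Fin n, Function.Surjective f ∧ ∀ A, A ∈ P.parts ↔ ∃ i, fib f i = A := by
  have e : {A // A ∈ P.parts} ≃ Fin n := Fintype.equivFinOfCardEq (by simpa using hP)
  let f : V → Fin n := fun v => e ⟨P.part v, P.part_mem.2 (mem_univ v)⟩
  have hfib : ∀ A (hA : A ∈ P.parts), fib f (e ⟨A, hA⟩) = A := by
    intro A hA
    ext v
    rw [mem_fib]
    show e ⟨P.part v, _⟩ = e ⟨A, hA⟩ ↔ _
    rw [e.apply_eq_iff_eq, Subtype.mk.injEq, P.part_eq_iff_mem hA]
  have hf : Function.Surjective f := by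
    intro i
    obtain ⟨⟨A, hA⟩, rfl⟩ := e.surjective i
    obtain ⟨v, hv⟩ := P.nonempty_of_mem_parts hA
    exact ⟨v, by rw [← mem_fib, hfib A hA]; exact hv⟩
  refine ⟨f, hf, ?_⟩
  intro A
  constructor
  · intro hA
    exact ⟨e ⟨A, hA⟩, hfib A hA⟩
  · rintro ⟨i, rfl⟩
    obtain ⟨⟨A, hA⟩, rfl⟩ := e.surjective i
    rw [hfib A hA]
    exact hA

lemma isoConst_le (Γ : SimpleGraph V) [DecidableRel Γ.Adj] (m : ℕ) {κ : Type*} [Fintype κ]
    [DecidableEq κ] (hκ : Fintype.card κ = m) (hm : 0 < m) (l : V → κ)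
    (hl : Function.Surjective l) :
    ∃ i, (isoConst Γ m : ℝ) * ((fib l i).card : ℝ) ≤ b Γ.Adj (fib l i) := by
  obtain ⟨P, hP, hparts⟩ := exists_partition l hl
  have h1 : isoConst Γ m ≤ partitionCost Γ P :=
    csInf_le (OrderBot.bddBelow _) ⟨P, hP.trans hκ, rfl⟩
  have hne : P.parts.Nonempty := by
    rw [← card_pos, hP, hκ]; exact hm
  obtain ⟨A, hA, hsup⟩ := exists_mem_eq_sup P.parts hne (isoRatio Γ)
  obtain ⟨i, hi⟩ := (hparts A).1 hA
  refine ⟨i, ?_⟩
  rw [hi]
  have hApos : (0:ℝ) < (A.card : ℝ) := by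
    exact_mod_cast card_pos.2 (P.nonempty_of_mem_parts hA)
  unfold partitionCost at h1
  rw [hsup] at h1
  have h2 : (isoConst Γ m : ℝ) ≤ (isoRatio Γ A : ℝ) := by exact_mod_cast h1
  have h3 : (isoRatio Γ A : ℝ) = b Γ.Adj A / (A.card : ℝ) := by
    unfold isoRatio
    push_cast
    rw [ncard_edgeBoundary]
  rw [h3, le_div_iff₀ hApos] at h2
  exact h2

lemma realizer_bound (Γ : SimpleGraph V) [DecidableRel Γ.Adj] (n : ℕ)
    (P : Finpartition (univ : Finset V)) (hP : IsRealizer Γ n P) (A : Finset V)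
    (hA : A ∈ P.parts) : b Γ.Adj A ≤ (isoConst Γ n : ℝ) * (A.card : ℝ) := by
  have h1 : isoRatio Γ A ≤ partitionCost Γ P := le_sup (f := isoRatio Γ) hA
  rw [hP.2] at h1
  have hApos : (0:ℝ) < (A.card : ℝ) := by
    exact_mod_cast card_pos.2 (P.nonempty_of_mem_parts hA)
  have h2 : (isoRatio Γ A : ℝ) ≤ (isoConst Γ n : ℝ) := by exact_mod_cast h1
  have h3 : (isoRatio Γ A : ℝ) = b Γ.Adj A / (A.card : ℝ) := by
    unfold isoRatio
    push_cast
    rw [ncard_edgeBoundary]
  rwa [h3, div_le_iff₀ hApos] at h2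

lemma exists_realizer (Γ : SimpleGraph V) (n : ℕ) (hn : 0 < n) (hV : n ≤ Fintype.card V) :
    ∃ P, IsRealizer Γ n P := by
  have hfin : Set.Finite {r | ∃ P : Finpartition (univ : Finset V),
      P.parts.card = n ∧ partitionCost Γ P = r} := by
    apply Set.Finite.subset (Set.finite_range (fun P : Finpartition (univ : Finset V) =>
      partitionCost Γ P))
    rintro r ⟨P, _, hr⟩
    exact ⟨P, hr⟩
  have hne : Set.Nonempty {r | ∃ P : Finpartition (univ : Finset V),
      P.parts.card = n ∧ partitionCost Γ P = r} := by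
    have : Nonempty (Fin n ↪ V) := Function.Embedding.nonempty_of_card_le (by simpa using hV)
    obtain ⟨φ⟩ := this
    have : Nonempty (Fin n) := ⟨⟨0, hn⟩⟩
    obtain ⟨P, hP, _⟩ := exists_partition (Function.invFun φ)
      (Function.invFun_surjective φ.injective)
    exact ⟨_, P, by simpa using hP, rfl⟩
  obtain ⟨P, hP⟩ := hne.csInf_mem hfin
  exact ⟨P, hP⟩

/-- uniqueness, in terms of labellings -/
lemma uniq {ι : Type*} [Fintype ι] [DecidableEq ι] (adj : V → V → Prop)
    [DecidableRel adj] (f f' : V → ι) (hn : 2 ≤ Fintype.card ι) (hf : Function.Surjective f)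
    (x K : ℝ) (hx0 : 0 ≤ x)
    (hxK : 2 * ((Fintype.card ι : ℝ) + 1) * x < K)
    (hK : ∀ l : V → Option ι, Function.Surjective l →
      ∃ o, K * ((fib l o).card : ℝ) ≤ b adj (fib l o))
    (hA : ∀ i, b adj (fib f i) ≤ x * ((fib f i).card : ℝ))
    (hc : ∀ i, (Fintype.card ι : ℝ) * ((fib f i).card : ℝ) = Fintype.card V)
    (hc' : ∀ i, (Fintype.card ι : ℝ) * ((fib f' i).card : ℝ) = Fintype.card V)
    (ho : ∀ v, ((univ.filter fun u => adj v u ∧ f u ≠ f v).card : ℝ) = x)
    (ho' : ∀ v, ((univ.filter fun u => adj v u ∧ f' u ≠ f' v).card : ℝ) = x) (v : V) :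
    fib f (f v) = fib f' (f' v) := by
  have hn' : (2 : ℝ) ≤ (Fintype.card ι : ℝ) := by exact_mod_cast hn
  have hKpos : 0 < K := lt_of_le_of_lt (by positivity) hxK
  have h2xK : 2 * x < K := by nlinarith
  by_contra hne
  -- neither block contains the other
  have hnotsub : ¬ fib f (f v) ⊆ fib f' (f' v) := by
    intro hsub
    apply hne
    apply eq_of_subset_of_card_le hsub
    have h1 := hc (f v)
    have h2 := hc' (f' v)
    have h3 : (Fintype.card ι : ℝ) * ((fib f' (f' v)).card : ℝ) =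
      (Fintype.card ι : ℝ) * ((fib f (f v)).card : ℝ) := h2.trans h1.symm
    have h4 := mul_left_cancel₀ (by linarith) h3
    exact le_of_eq (by exact_mod_cast h4)
  obtain ⟨q, hq1, hq2⟩ := not_subset.1 hnotsub
  -- bound for sets
  have hbound : ∀ T : Finset V, (∀ p ∈ T, ∀ r, r ∉ T → f r ≠ f p ∨ f' r ≠ f' p) →
      b adj T ≤ 2 * x * (T.card : ℝ) := by
    intro T hT
    have h1 : b adj T ≤ cnt adj (fun u w => u ∈ T ∧ f w ≠ f u) +
        cnt adj (fun u w => u ∈ T ∧ f' w ≠ f' u) := by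
      rw [b_eq_cnt]
      refine le_trans ?_ (cnt_or_le adj _ _)
      apply cnt_mono
      rintro p r _ ⟨hp, hr⟩
      rcases hT p hp r hr with h | h
      · left; exact ⟨hp, h⟩
      · right; exact ⟨hp, h⟩
    rw [cnt_out f x ho T, cnt_out f' x ho' T] at h1
    linarith
  have hcontra : ∀ T : Finset V, T.Nonempty → b adj T ≤ 2 * x * (T.card : ℝ) →
      ¬ (K * (T.card : ℝ) ≤ b adj T) := by
    intro T hT h1 h2
    have hpos : (0:ℝ) < (T.card : ℝ) := by exact_mod_cast card_pos.2 hT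
    have := mul_lt_mul_of_pos_right h2xK hpos
    linarith
  rcases split (adj := adj) f K hK (fib f (f v) ∩ fib f' (f' v)) ⟨v, by simp⟩ (by
    intro i
    by_cases hi : i = f v
    · refine ⟨q, ?_, ?_⟩
      · rw [mem_inter]; exact fun h => hq2 h.2
      · rw [hi]; exact (mem_fib _ _ _).1 hq1
    · obtain ⟨r, hr⟩ := hf i
      refine ⟨r, ?_, hr⟩
      rw [mem_inter, mem_fib]
      rintro ⟨h, _⟩
      exact hi (hr.symm.trans h)) with h | ⟨i, h⟩
  · refine hcontra _ ⟨v, by simp⟩ (hbound _ ?_) h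
    intro p hp r hr
    rw [mem_inter, mem_fib, mem_fib] at hp hr
    rw [hp.1, hp.2]
    tauto
  · by_cases hi : i = f v
    · have e : fib f i \ (fib f (f v) ∩ fib f' (f' v)) = fib f (f v) \ fib f' (f' v) := by
        rw [hi]; ext r; simp only [mem_sdiff, mem_inter]; tauto
      rw [e] at h
      refine hcontra _ ⟨q, mem_sdiff.2 ⟨hq1, hq2⟩⟩ (hbound _ ?_) h
      intro p hp r hr
      rw [mem_sdiff, mem_fib, mem_fib] at hp hr
      rw [hp.1]
      by_cases h1 : f r = f v
      · right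
        have h2 : f' r = f' v := by
          by_contra h3
          exact hr ⟨h1, h3⟩
        rw [h2]
        exact fun h4 => hp.2 h4.symm
      · left; exact h1
    · have e : fib f i \ (fib f (f v) ∩ fib f' (f' v)) = fib f i := by
        ext r
        simp only [mem_sdiff, mem_inter, mem_fib]
        constructor
        · exact fun h => h.1
        · intro h
          refine ⟨h, ?_⟩
          rintro ⟨h', _⟩
          exact hi (h.symm.trans h')
      rw [e] at h
      have hpos : (fib f i).Nonempty := by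
        obtain ⟨r, hr⟩ := hf i
        exact ⟨r, by simpa using hr⟩
      refine hcontra _ hpos ?_ h
      have h1 := hA i
      have h2 : (0:ℝ) ≤ x * ((fib f i).card : ℝ) := by positivity
      linarith

/-- **Main theorem.** Let `Γ` be a finite vertex-transitive graph, `n ≥ 2`, `|V| ≥ n + 1`, and
`h_{n+1}(Γ) > 2 (n+1) h_n(Γ)`. Then `h_n(Γ)` has exactly one realizer, and this realizer is a
system of imprimitivity (of size `n`) for the action of `Aut(Γ)` on `V`. -/
theorem result (Γ : SimpleGraph V) (htrans : ∀ v w : V, ∃ g : Γ ≃g Γ, g v = w)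
    (n : ℕ) (hn : 2 ≤ n) (hV : n + 1 ≤ Fintype.card V)
    (hgap : 2 * ((n : ℝ≥0) + 1) * isoConst Γ n < isoConst Γ (n + 1)) :
    ∃ P : Finpartition (univ : Finset V),
      IsRealizer Γ n P ∧ IsImprimitivitySystem Γ P ∧ ∀ Q, IsRealizer Γ n Q → Q = P := by
  classical
  have hG : Finite (Γ ≃g Γ) :=
    Finite.of_injective (fun g : Γ ≃g Γ => (g : V → V)) DFunLike.coe_injective
  have : Fintype (Γ ≃g Γ) := Fintype.ofFinite _
  have : MulAction.IsPretransitive (Γ ≃g Γ) V := ⟨fun v w => htrans v w⟩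
  have hsymm : ∀ u v, Γ.Adj u v → Γ.Adj v u := fun u v h => h.symm
  have hinv : ∀ (g : Γ ≃g Γ) u v, Γ.Adj u v → Γ.Adj (g • u) (g • v) := by
    intro g u v h
    exact g.map_rel_iff.2 h
  set x : ℝ := (isoConst Γ n : ℝ) with hx
  set K : ℝ := (isoConst Γ (n + 1) : ℝ) with hKdef
  have hx0 : 0 ≤ x := NNReal.coe_nonneg _
  have hxK : 2 * ((Fintype.card (Fin n) : ℝ) + 1) * x < K := by
    rw [Fintype.card_fin]
    exact_mod_cast hgap
  have hK : ∀ l : V → Option (Fin n), Function.Surjective l →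
      ∃ o, K * ((fib l o).card : ℝ) ≤ b Γ.Adj (fib l o) := by
    intro l hl
    exact isoConst_le Γ (n + 1) (by simp) (by omega) l hl
  have hmin : ∀ l : V → Fin n, Function.Surjective l →
      ∃ i, x * ((fib l i).card : ℝ) ≤ b Γ.Adj (fib l i) := by
    intro l hl
    exact isoConst_le Γ n (by simp) (by omega) l hl
  have hcard2 : 2 ≤ Fintype.card (Fin n) := by simpa using hn
  -- every realizer
  have hreal : ∀ Q, IsRealizer Γ n Q → ∃ f : V → Fin n, Function.Surjective f ∧
      (∀ A, A ∈ Q.parts ↔ ∃ i, fib f i = A) ∧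
      (∀ i, b Γ.Adj (fib f i) ≤ x * ((fib f i).card : ℝ)) ∧
      (∀ (g : Γ ≃g Γ) u v, f u = f v → f (g • u) = f (g • v)) ∧
      (∀ i, (Fintype.card (Fin n) : ℝ) * ((fib f i).card : ℝ) = Fintype.card V) ∧
      (∀ v, ((univ.filter fun u => Γ.Adj v u ∧ f u ≠ f v).card : ℝ) = x) := by
    intro Q hQ
    obtain ⟨f, hf, hparts⟩ := exists_label n Q hQ.1
    have hA : ∀ i, b Γ.Adj (fib f i) ≤ x * ((fib f i).card : ℝ) := fun i =>
      realizer_bound Γ n Q hQ _ ((hparts _).2 ⟨i, rfl⟩)
    obtain ⟨h1, h2, h3⟩ := core (G := (Γ ≃g Γ)) hsymm hinv f hf hcard2 x K hx0 hxK hA hK hmin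
    exact ⟨f, hf, hparts, hA, h1, h2, h3⟩
  obtain ⟨P, hP⟩ := exists_realizer Γ n (by omega) (by omega)
  obtain ⟨f, hf, hparts, hA, hfinv, hfc, hfo⟩ := hreal P hP
  refine ⟨P, hP, ?_, ?_⟩
  · intro g A hAmem
    obtain ⟨i, rfl⟩ := (hparts A).1 hAmem
    obtain ⟨v, hv⟩ := hf i
    refine (hparts _).2 ⟨f (g • v), ?_⟩
    ext r
    rw [mem_fib, mem_image]
    constructor
    · intro hr
      refine ⟨g⁻¹ • r, ?_, ?_⟩
      · rw [mem_fib]
        have := hfinv g⁻¹ _ _ hr
        rw [inv_smul_smul] at this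
        exact this.trans hv
      · exact smul_inv_smul g r
    · rintro ⟨p, hp, rfl⟩
      rw [mem_fib] at hp
      exact hfinv g _ _ (hp.trans hv.symm)
  · intro Q hQ
    obtain ⟨f', hf', hparts', hA', hfinv', hfc', hfo'⟩ := hreal Q hQ
    have huniq : ∀ v, fib f (f v) = fib f' (f' v) := fun v =>
      uniq Γ.Adj f f' hcard2 hf x K hx0 hxK hK hA hfc hfc' hfo hfo' v
    apply Finpartition.ext
    ext A
    rw [hparts, hparts']
    constructor
    · rintro ⟨i, rfl⟩
      obtain ⟨v, rfl⟩ := hf' i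
      exact ⟨f v, huniq v⟩
    · rintro ⟨i, rfl⟩
      obtain ⟨v, rfl⟩ := hf i
      exact ⟨f' v, (huniq v).symm⟩

end Pool.Agent.Results.MP_8474a0_co.UniqueRealizer
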